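import Pool.Agent.L7h26.TN.Stm

set_option autoImplicit false

/-!
# Project TN, part SQF: few integers have a large square part

`N = b ^ 2 a` with `a` squarefree; then `a ∣ 2 b Q N`, so `r N ≤ 2 b ^ 3`, and few `N ≤ X` are divisible by a large square.
-/

namespace Pool.Agent.L7h78.TN

open Pool.Agent.L7h26.TN

lemma Q_pos (N : ℕ) : 0 < Q N := Finset.prod_pos (fun p hp => by
  have := Finset.mem_filter.1 hp
  exact (Nat.prime_of_mem_primeFactors this.1).pos)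

lemma dvd_aux (N a b : ℕ) (hN : 0 < N) (h : b ^ 2 * a = N) (ha : Squarefree a) :
    a ∣ 2 * b * Q N := by
  rw [← Nat.prod_primeFactors_of_squarefree ha]
  apply Finset.prod_primes_dvd
  · intro p hp
    exact (Nat.prime_of_mem_primeFactors hp).prime
  · intro p hp
    have hpp := Nat.prime_of_mem_primeFactors hp
    have hpa := Nat.dvd_of_mem_primeFactors hp
    by_cases h2 : p = 2
    · subst h2
      rw [mul_assoc]
      exact dvd_mul_right _ _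
    by_cases hb : p ∣ b
    · exact Dvd.dvd.mul_right (Dvd.dvd.mul_left hb 2) _
    · apply Dvd.dvd.mul_left
      apply Finset.dvd_prod_of_mem (fun p => p)
      rw [Finset.mem_filter]
      refine ⟨Nat.mem_primeFactors.2 ⟨hpp, h ▸ Dvd.dvd.mul_left hpa _, hN.ne'⟩, h2, ?_⟩
      intro hp2
      rw [← h] at hp2
      have hc : Nat.Coprime (p ^ 2) (b ^ 2) :=
        Nat.Coprime.pow _ _ ((Nat.Prime.coprime_iff_not_dvd hpp).2 hb)
      have h3 : p ^ 2 ∣ a := hc.dvd_of_dvd_mul_left hp2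
      have h4 := ha p (by rwa [← sq])
      exact hpp.one_lt.ne' (Nat.isUnit_iff.1 h4)

lemma r_le (N a b : ℕ) (hN : 0 < N) (h : b ^ 2 * a = N) (ha : Squarefree a) :
    r N ≤ 2 * b ^ 3 := by
  have hb : 0 < b := by
    rcases Nat.eq_zero_or_pos b with h0 | h0
    · subst h0
      simp at h
      omega
    · exact h0
  have hQ := Q_pos N
  have hle : a ≤ 2 * b * Q N := Nat.le_of_dvd (by positivity) (dvd_aux N a b hN h ha)
  unfold r
  apply Nat.div_le_of_le_mul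
  calc N = b ^ 2 * a := h.symm
    _ ≤ b ^ 2 * (2 * b * Q N) := Nat.mul_le_mul_left _ hle
    _ = Q N * (2 * b ^ 3) := by ring

theorem s_SQF : S_SQF := by
  intro X R hR
  set k := ⌊(R / 2) ^ ((3 : ℕ) : ℝ)⁻¹⌋₊ with hk
  have hR0 : 0 < R := by linarith
  have key : ∀ N : ℕ, 1 ≤ N → N ≤ X → R < r N → ∃ b ∈ Finset.Ioo k (X + 1), b ^ 2 ∣ N := by
    intro N h1 h2 h3
    obtain ⟨a, b, hab, ha⟩ := Nat.sq_mul_squarefree N
    have hr := r_le N a b h1 hab ha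
    have hr' : (r N : ℝ) ≤ 2 * (b : ℝ) ^ 3 := by exact_mod_cast hr
    have hb3 : R / 2 < (b : ℝ) ^ 3 := by linarith
    have hb : (R / 2) ^ ((3 : ℕ) : ℝ)⁻¹ < b := by
      calc (R / 2) ^ ((3 : ℕ) : ℝ)⁻¹ < ((b : ℝ) ^ 3) ^ ((3 : ℕ) : ℝ)⁻¹ :=
            Real.rpow_lt_rpow (by positivity) hb3 (by norm_num)
        _ = b := Real.pow_rpow_inv_natCast (by positivity) (by norm_num)
    have hkb : k < b := (Nat.floor_lt (by positivity)).2 hb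
    have hdv : b ^ 2 ∣ N := ⟨a, hab.symm⟩
    have hbN : b ^ 2 ≤ N := Nat.le_of_dvd h1 hdv
    refine ⟨b, Finset.mem_Ioo.2 ⟨hkb, ?_⟩, hdv⟩
    nlinarith
  have hsub : {N : ℕ | 1 ≤ N ∧ N ≤ X ∧ R < r N} ⊆
      (((Finset.Ioo k (X + 1)).biUnion
        (fun b => (Finset.Ioc 0 X).filter (fun N => b ^ 2 ∣ N)) : Finset ℕ) : Set ℕ) := by
    intro N hN
    obtain ⟨h1, h2, h3⟩ := hN
    obtain ⟨b, hb, hd⟩ := key N h1 h2 h3
    rw [Finset.mem_coe, Finset.mem_biUnion]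
    exact ⟨b, hb, Finset.mem_filter.2 ⟨Finset.mem_Ioc.2 ⟨h1, h2⟩, hd⟩⟩
  have hcard : Nat.card {N : ℕ // 1 ≤ N ∧ N ≤ X ∧ R < r N} ≤
      ∑ b ∈ Finset.Ioo k (X + 1), X / b ^ 2 := by
    have h1 : Nat.card {N : ℕ // 1 ≤ N ∧ N ≤ X ∧ R < r N} =
        Set.ncard {N : ℕ | 1 ≤ N ∧ N ≤ X ∧ R < r N} := rfl
    rw [h1]
    refine (Set.ncard_le_ncard hsub (Finset.finite_toSet _)).trans ?_
    rw [Set.ncard_coe_finset]
    refine Finset.card_biUnion_le.trans ?_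
    apply Finset.sum_le_sum
    intro b _
    rw [Nat.Ioc_filter_dvd_card_eq_div]
  have hcard' : (Nat.card {N : ℕ // 1 ≤ N ∧ N ≤ X ∧ R < r N} : ℝ) ≤
      X * (2 / ((k : ℝ) + 1)) := by
    calc (Nat.card {N : ℕ // 1 ≤ N ∧ N ≤ X ∧ R < r N} : ℝ)
        ≤ ((∑ b ∈ Finset.Ioo k (X + 1), X / b ^ 2 : ℕ) : ℝ) := by exact_mod_cast hcard
      _ = ∑ b ∈ Finset.Ioo k (X + 1), ((X / b ^ 2 : ℕ) : ℝ) := by push_cast; rfl
      _ ≤ ∑ b ∈ Finset.Ioo k (X + 1), (X : ℝ) * ((b : ℝ) ^ 2)⁻¹ := by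
          apply Finset.sum_le_sum
          intro b _
          refine Nat.cast_div_le.trans ?_
          rw [Nat.cast_pow, div_eq_mul_inv]
      _ = X * ∑ b ∈ Finset.Ioo k (X + 1), ((b : ℝ) ^ 2)⁻¹ := by rw [Finset.mul_sum]
      _ ≤ X * (2 / ((k : ℝ) + 1)) := by
          apply mul_le_mul_of_nonneg_left (sum_Ioo_inv_sq_le k (X + 1)) (by positivity)
  refine hcard'.trans ?_
  have hfl : (R / 2) ^ ((3 : ℕ) : ℝ)⁻¹ < (k : ℝ) + 1 := Nat.lt_floor_add_one _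
  have hpos : 0 < (R / 2) ^ ((3 : ℕ) : ℝ)⁻¹ := by positivity
  have h2 : 2 / ((k : ℝ) + 1) ≤ 2 / (R / 2) ^ ((3 : ℕ) : ℝ)⁻¹ :=
    div_le_div_of_nonneg_left (by norm_num) hpos hfl.le
  have h3 : 2 / (R / 2) ^ ((3 : ℕ) : ℝ)⁻¹ ≤ 4 * R ^ (-(1 / 3) : ℝ) := by
    have e1 : (R / 2) ^ ((3 : ℕ) : ℝ)⁻¹ = R ^ (1 / 3 : ℝ) / 2 ^ (1 / 3 : ℝ) := by
      rw [Real.div_rpow hR0.le (by norm_num)]
      norm_num
    have e2 : R ^ (-(1 / 3) : ℝ) = (R ^ (1 / 3 : ℝ))⁻¹ := Real.rpow_neg hR0.le _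
    have e3 : (2 : ℝ) ^ (1 / 3 : ℝ) ≤ 2 := by
      calc (2 : ℝ) ^ (1 / 3 : ℝ) ≤ (2 : ℝ) ^ (1 : ℝ) :=
            Real.rpow_le_rpow_of_exponent_le (by norm_num) (by norm_num)
        _ = 2 := Real.rpow_one 2
    have e4 : 0 < R ^ (1 / 3 : ℝ) := by positivity
    have e5 : (0 : ℝ) < 2 ^ (1 / 3 : ℝ) := by positivity
    rw [e1, e2, div_div_eq_mul_div, ← div_eq_mul_inv]
    apply div_le_div_of_nonneg_right _ e4.le
    linarith
  calc (X : ℝ) * (2 / ((k : ℝ) + 1)) ≤ X * (4 * R ^ (-(1 / 3) : ℝ)) :=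
        mul_le_mul_of_nonneg_left (h2.trans h3) (by positivity)
    _ = 4 * X * R ^ (-(1 / 3) : ℝ) := by ring

end Pool.Agent.L7h78.TN
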